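import Pool.Agent.H801R3.NS.Defs

/-!
# Stable approximation of a convex body by finitely many points (helper373)
-/

set_option autoImplicit false

open scoped Matrix Pointwise

namespace TH373.MG

open H801NS

/-- finitely many centres such that all nearby points lie in `K` and span `(1 - ε) K` -/
theorem approx_stable {m : ℕ} {K : Set (Fin m → ℝ)} (hK : NB K) {ε : ℝ} (hε : 0 < ε)
    (hε1 : ε < 1) :
    ∃ (N : ℕ) (x : Fin N → Fin m → ℝ) (δ : ℝ), 0 < δ ∧ ∀ y : Fin N → Fin m → ℝ,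
      (∀ a, ‖y a - x a‖ < δ) → (∀ a, y a ∈ K) ∧
        (1 - ε) • K ⊆ convexHull ℝ (Set.range y) := by
  -- a ball in `K`
  obtain ⟨ρ, hρ, hball⟩ : ∃ ρ : ℝ, 0 < ρ ∧ Metric.closedBall (0 : Fin m → ℝ) ρ ⊆ K := by
    obtain ⟨ρ, hρ, h⟩ := Metric.mem_nhds_iff.1 (mem_interior_iff_mem_nhds.1 hK.zero)
    exact ⟨ρ / 2, by linarith, (Metric.closedBall_subset_ball (by linarith)).trans h⟩
  have hδ : 0 < ε * ρ / 4 := by positivity
  obtain ⟨F, hFK, hFf, hcov⟩ := hK.comp.finite_cover_balls hδ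
  obtain ⟨V, hV⟩ : ∃ V : Fin hFf.toFinset.card → Fin m → ℝ, Set.range V = F := by
    refine ⟨fun i => (hFf.toFinset.equivFin.symm i : Fin m → ℝ), ?_⟩
    ext x
    constructor
    · rintro ⟨i, rfl⟩
      have := (hFf.toFinset.equivFin.symm i).2
      exact hFf.mem_toFinset.1 this
    · intro hx
      refine ⟨hFf.toFinset.equivFin ⟨x, hFf.mem_toFinset.2 hx⟩, ?_⟩
      simp
  refine ⟨_, fun a => (1 - ε / 2) • V a, ε * ρ / 4, hδ, fun y hy => ⟨fun a => ?_, ?_⟩⟩
  · -- `y a = (1 - ε/2) V a + (ε/2) w` with `w` in the ball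
    have hw : (2 / ε) • (y a - (1 - ε / 2) • V a) ∈ K := by
      apply hball
      rw [mem_closedBall_zero_iff, norm_smul, Real.norm_of_nonneg (by positivity)]
      have := (hy a).le
      calc 2 / ε * ‖y a - (1 - ε / 2) • V a‖ ≤ 2 / ε * (ε * ρ / 4) := by gcongr
        _ = ρ / 2 := by field_simp; norm_num
        _ ≤ ρ := by linarith
    have hVa : V a ∈ K := hFK (hV ▸ Set.mem_range_self a)
    have h1 := hK.conv hVa hw (show 0 ≤ 1 - ε / 2 by linarith) (show 0 ≤ ε / 2 by linarith)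
      (by ring)
    have h2 : (1 - ε / 2) • V a + (ε / 2) • ((2 / ε) • (y a - (1 - ε / 2) • V a)) = y a := by
      rw [smul_smul]
      have : ε / 2 * (2 / ε) = 1 := by field_simp
      rw [this, one_smul]
      abel
    rwa [h2] at h1
  · have hCcl : IsClosed (convexHull ℝ (Set.range y)) :=
      ((Set.finite_range y).isCompact_convexHull (𝕜 := ℝ)).isClosed
    have hCcv : Convex ℝ (convexHull ℝ (Set.range y)) := convex_convexHull ℝ _
    rintro _ ⟨d, hd, rfl⟩
    by_contra hcon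
    obtain ⟨f, u, hfC, hfz⟩ := geometric_hahn_banach_closed_point hCcv hCcl hcon
    obtain ⟨x, hxK, hmax⟩ := hK.comp.exists_isMaxOn ⟨0, interior_subset hK.zero⟩
      f.continuous.continuousOn
    have hmax' : ∀ y ∈ K, f y ≤ f x := fun y hy => hmax hy
    obtain ⟨a, ha⟩ : ∃ a, ‖x - V a‖ < ε * ρ / 4 := by
      obtain ⟨a', ha', h⟩ := Set.mem_iUnion₂.1 (hcov hxK)
      rw [← hV] at ha'
      obtain ⟨a, rfl⟩ := ha'
      exact ⟨a, by rw [← dist_eq_norm]; exact Metric.mem_ball.1 h⟩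
    have h1 := hfC _ (subset_convexHull ℝ _ (Set.mem_range_self a))
    obtain ⟨w, hw⟩ : ∃ w, w = (1 - ε / 2) • x - y a := ⟨_, rfl⟩
    have hwn : ‖w‖ ≤ ε * ρ / 2 := by
      have : w = (1 - ε / 2) • (x - V a) - (y a - (1 - ε / 2) • V a) := by rw [hw]; module
      rw [this]
      calc ‖(1 - ε / 2) • (x - V a) - (y a - (1 - ε / 2) • V a)‖
          ≤ ‖(1 - ε / 2) • (x - V a)‖ + ‖y a - (1 - ε / 2) • V a‖ := norm_sub_le _ _
        _ ≤ 1 * (ε * ρ / 4) + ε * ρ / 4 := by
          refine add_le_add ?_ (hy a).le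
          rw [norm_smul, Real.norm_of_nonneg (by linarith)]
          exact mul_le_mul (by linarith) ha.le (norm_nonneg _) (by norm_num)
        _ = ε * ρ / 2 := by ring
    have hwK : (2 / ε) • w ∈ K := by
      apply hball
      rw [mem_closedBall_zero_iff, norm_smul, Real.norm_of_nonneg (by positivity)]
      calc 2 / ε * ‖w‖ ≤ 2 / ε * (ε * ρ / 2) := by gcongr
        _ = ρ := by field_simp
    have h2 := hmax' _ hwK
    rw [map_smul, smul_eq_mul] at h2
    have h2' : f w ≤ ε / 2 * f x := by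
      have : f w = ε / 2 * (2 / ε * f w) := by field_simp
      rw [this]
      exact mul_le_mul_of_nonneg_left h2 (by positivity)
    have h4 : f w = (1 - ε / 2) * f x - f (y a) := by
      rw [hw, map_sub, map_smul, smul_eq_mul]
    have h5 := hmax' d hd
    have h6 : f ((fun x => (1 - ε) • x) d) = (1 - ε) * f d := by
      simp only [map_smul, smul_eq_mul]
    rw [h6] at hfz
    have h7 : (1 - ε) * f d ≤ (1 - ε) * f x := mul_le_mul_of_nonneg_left h5 (by linarith)
    nlinarith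

end TH373.MG
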