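import Pool.Agent.H801R3.NS.Defs

/-!
# Generic rational points near given points (helper373)

`gen_points`: given finitely many centres `x a` in `ℝᵐ` and a finite set `S` of nonzero reals, there
are rational points `y a` near `x a` such that no functional `η` takes values from `S` at more than
`m` of the `y a`, and any `m` of the `y a` (with distinct indices) are linearly independent.
-/

set_option autoImplicit false

open scoped Matrix Pointwise

namespace TH373.MG

/-- a nonzero polynomial is nonzero at some rational point of any open box -/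
theorem exists_rat_ne {σ : Type*} (P : MvPolynomial σ ℝ) (hP : P ≠ 0) (x : σ → ℝ) {δ : ℝ}
    (hδ : 0 < δ) :
    ∃ q : σ → ℚ, (∀ i, |(q i : ℝ) - x i| < δ) ∧
      MvPolynomial.eval (fun i => (q i : ℝ)) P ≠ 0 := by
  by_contra hcon
  push Not at hcon
  apply hP
  refine MvPolynomial.funext_set (fun i => {t : ℝ | ∃ q : ℚ, (q : ℝ) = t ∧ |t - x i| < δ}) ?_ ?_
  · intro i
    obtain ⟨a, ha1, ha2⟩ := exists_rat_btwn (show x i - δ < x i by linarith)
    obtain ⟨b, hb1, hb2⟩ := exists_rat_btwn (show x i < x i + δ by linarith)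
    have hab : a < b := by exact_mod_cast ha2.trans hb1
    refine ((Set.Ioo_infinite hab).image (Rat.cast_injective (α := ℝ)).injOn).mono ?_
    rintro _ ⟨q, hq, rfl⟩
    refine ⟨q, rfl, ?_⟩
    have h1 : (a : ℝ) < q := by exact_mod_cast hq.1
    have h2 : (q : ℝ) < b := by exact_mod_cast hq.2
    rw [abs_lt]
    constructor <;> linarith
  · intro y hy
    have hy' : ∀ i, ∃ q : ℚ, (q : ℝ) = y i ∧ |y i - x i| < δ := fun i => hy i (Set.mem_univ i)
    choose q hq using hy'
    have h1 := hcon q fun i => by rw [(hq i).1]; exact (hq i).2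
    have h2 : (fun i => (q i : ℝ)) = y := funext fun i => (hq i).1
    rw [h2] at h1
    rw [h1, map_zero]

section

variable {ι : Type*} {m : ℕ}

/-- determinant of `m` of the vectors -/
noncomputable def detLI (s : Fin m → ι) : MvPolynomial (ι × Fin m) ℝ :=
  (Matrix.of fun i l => MvPolynomial.X (s i, l)).det

/-- determinant of `m + 1` of the vectors, completed by a column of values -/
noncomputable def detG (s : Fin (m + 1) → ι) (c : Fin (m + 1) → ℝ) :
    MvPolynomial (ι × Fin m) ℝ :=
  (Matrix.of fun (i l : Fin (m + 1)) =>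
    (Fin.lastCases (MvPolynomial.C (c i)) (fun l => MvPolynomial.X (s i, l)) l :
      MvPolynomial (ι × Fin m) ℝ)).det

theorem eval_detLI (s : Fin m → ι) (p : ι × Fin m → ℝ) :
    MvPolynomial.eval p (detLI s) = (Matrix.of fun i l => p (s i, l)).det := by
  unfold detLI
  rw [RingHom.map_det]
  congr 1
  ext i l
  simp

theorem eval_detG (s : Fin (m + 1) → ι) (c : Fin (m + 1) → ℝ) (p : ι × Fin m → ℝ) :
    MvPolynomial.eval p (detG s c) = (Matrix.of fun (i l : Fin (m + 1)) =>
      (Fin.lastCases (c i) (fun l => p (s i, l)) l : ℝ)).det := by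
  unfold detG
  rw [RingHom.map_det]
  congr 1
  ext i l
  refine Fin.lastCases ?_ (fun l => ?_) l <;> simp

theorem detLI_ne (s : Fin m → ι) (hs : Function.Injective s) : detLI s ≠ 0 := by
  classical
  intro h
  have h1 := eval_detLI s (fun a => if a.1 = s a.2 then (1 : ℝ) else 0)
  rw [h, map_zero] at h1
  have h2 : (Matrix.of fun i l : Fin m => if s i = s l then (1 : ℝ) else 0) = 1 := by
    ext i l
    simp [Matrix.one_apply, hs.eq_iff]
  simp only at h1
  rw [h2, Matrix.det_one] at h1
  exact zero_ne_one h1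

theorem detG_ne (s : Fin (m + 1) → ι) (hs : Function.Injective s) (c : Fin (m + 1) → ℝ)
    (hc : c (Fin.last m) ≠ 0) : detG s c ≠ 0 := by
  classical
  intro h
  have h1 := eval_detG s c (fun a => if a.1 = s a.2.castSucc then (1 : ℝ) else 0)
  rw [h, map_zero] at h1
  rw [Matrix.det_of_isUpperTriangular, Fin.prod_univ_castSucc] at h1
  · simp at h1
    exact hc h1.symm
  · intro i l hil
    simp only [id] at hil
    revert hil
    refine Fin.lastCases ?_ (fun l => ?_) l
    · intro h
      exact absurd h (not_lt.2 (Fin.le_last i))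
    · intro h
      simp only [Matrix.of_apply, Fin.lastCases_castSucc]
      rw [if_neg]
      intro h2
      exact absurd (hs h2) (ne_of_gt h)

end

/-- generic rational points near given centres -/
theorem gen_points {ι : Type*} [Fintype ι] {m : ℕ} (x : ι → Fin m → ℝ) {δ : ℝ} (hδ : 0 < δ)
    (S : Finset ℝ) (hS : (0 : ℝ) ∉ S) :
    ∃ y : ι → Fin m → ℚ, (∀ a i, |(y a i : ℝ) - x a i| < δ) ∧
      (∀ i a b, a ≠ b → y a i ≠ y b i) ∧
      (∀ s : Fin m → ι, Function.Injective s →
        (Matrix.of fun i l => (y (s i) l : ℝ)).det ≠ 0) ∧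
      (∀ (η : Fin m → ℝ) (J : Finset ι),
        (∀ a ∈ J, η ⬝ᵥ (fun i => (y a i : ℝ)) ∈ S) → J.card ≤ m) := by
  classical
  set P : MvPolynomial (ι × Fin m) ℝ :=
    (∏ s : {s : Fin m → ι // Function.Injective s}, detLI s.1) *
    (∏ s : {s : Fin (m + 1) → ι // Function.Injective s},
      ∏ c ∈ Fintype.piFinset (fun _ : Fin (m + 1) => S), detG s.1 c) *
    (∏ i : Fin m, ∏ a : {a : ι × ι // a.1 ≠ a.2},
      (MvPolynomial.X (a.1.1, i) - MvPolynomial.X (a.1.2, i))) with hPdef
  have hP : P ≠ 0 := by
    rw [hPdef]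
    refine mul_ne_zero (mul_ne_zero ?_ ?_) ?_
    · exact Finset.prod_ne_zero_iff.2 fun s _ => detLI_ne s.1 s.2
    · refine Finset.prod_ne_zero_iff.2 fun s _ => Finset.prod_ne_zero_iff.2 fun c hc => ?_
      refine detG_ne s.1 s.2 c fun h0 => hS ?_
      rw [← h0]
      exact Fintype.mem_piFinset.1 hc _
    · refine Finset.prod_ne_zero_iff.2 fun i _ => Finset.prod_ne_zero_iff.2 fun a _ => ?_
      rw [sub_ne_zero]
      intro h
      have := MvPolynomial.X_injective h
      exact a.2 (congrArg Prod.fst this)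
  obtain ⟨q, hq1, hq2⟩ := exists_rat_ne P hP (fun a => x a.1 a.2) hδ
  rw [hPdef, map_mul, map_mul, map_prod, map_prod, map_prod] at hq2
  obtain ⟨h12, h3⟩ := mul_ne_zero_iff.1 hq2
  obtain ⟨h1, h2⟩ := mul_ne_zero_iff.1 h12
  rw [Finset.prod_ne_zero_iff] at h1 h2 h3
  refine ⟨fun a i => q (a, i), fun a i => hq1 (a, i), ?_, ?_, ?_⟩
  · intro i a b hab heq
    have := h3 i (Finset.mem_univ _)
    rw [map_prod, Finset.prod_ne_zero_iff] at this
    have := this ⟨(a, b), hab⟩ (Finset.mem_univ _)
    apply this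
    simp only [map_sub, MvPolynomial.eval_X]
    have heq' : q (a, i) = q (b, i) := heq
    rw [heq', sub_self]
  · intro s hs
    have := h1 ⟨s, hs⟩ (Finset.mem_univ _)
    rwa [eval_detLI] at this
  · intro η J hJ
    by_contra hcard
    push Not at hcard
    obtain ⟨J', hJ', hc'⟩ := Finset.exists_subset_card_eq (Nat.succ_le_of_lt hcard)
    let e : Fin (m + 1) ≃ J' := (Fintype.equivOfCardEq (by
      rw [Fintype.card_coe, hc', Fintype.card_fin])).symm
    have hinj : Function.Injective fun i => (e i : ι) :=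
      Subtype.val_injective.comp e.injective
    have := h2 ⟨fun i => (e i : ι), hinj⟩ (Finset.mem_univ _)
    rw [map_prod, Finset.prod_ne_zero_iff] at this
    have := this (fun i => η ⬝ᵥ (fun l => (q ((e i : ι), l) : ℝ)))
      (Fintype.mem_piFinset.2 fun i => hJ _ (hJ' (e i).2))
    rw [eval_detG] at this
    apply this
    rw [← Matrix.exists_mulVec_eq_zero_iff]
    refine ⟨Fin.snoc η (-1), ?_, ?_⟩
    · intro h0
      have := congrFun h0 (Fin.last m)
      simp at this
    · ext i
      simp only [Matrix.mulVec, dotProduct, Fin.sum_univ_castSucc, Matrix.of_apply,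
        Fin.lastCases_castSucc, Fin.snoc_castSucc, Fin.lastCases_last, Fin.snoc_last,
        Pi.zero_apply]
      have : ∑ x : Fin m, (q ((e i : ι), x) : ℝ) * η x = ∑ x : Fin m, η x * (q ((e i : ι), x) : ℝ) :=
        Finset.sum_congr rfl fun l _ => mul_comm _ _
      rw [this]
      ring

end TH373.MG
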