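import Pool.Agent.TH373.MG.Main
import Pool.Agent.TH321.MH.Star

/-!
# The geometric input of the reduction (helper373)

`geo`: a convex body `K` with the origin inside is approximated by `M⁻¹ conv V`, `V` a finite family
of integer vectors, such that `V` and all the families `V ∪ -r V` (`r ∈ R`, `R` finite) are in
general position in the sense of `TH321.MH.Gen`.
-/

set_option autoImplicit false

open scoped Matrix Pointwise
open MeasureTheory

namespace TH373.MG

open TH321.MH (Q Gen Star)

/-- the family `V ∪ -r V` -/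
noncomputable def Wr {m N : ℕ} (V : Fin N → Fin m → ℤ) (r : ℝ) : Fin N ⊕ Fin N → Fin m → ℝ :=
  Sum.elim (fun j => toR (V j)) (fun j => (-r) • toR (V j))

/-- the integral family `V ∪ -V` -/
def Vi {m N : ℕ} (V : Fin N → Fin m → ℤ) : Fin N ⊕ Fin N → Fin m → ℤ :=
  Sum.elim V (fun j => - V j)

/-- the polytope `conv V` -/
def PV {m N : ℕ} (V : Fin N → Fin m → ℤ) : Set (Fin m → ℝ) :=
  convexHull ℝ (Set.range fun j => toR (V j))

theorem range_Wr {m N : ℕ} (V : Fin N → Fin m → ℤ) (r : ℝ) :
    Set.range (Wr V r) = (Set.range fun j => toR (V j)) ∪ (-r) • Set.range fun j => toR (V j) := by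
  rw [Wr, Set.Sum.elim_range, Set.smul_set_range]

theorem hull_Wr {m N : ℕ} (V : Fin N → Fin m → ℤ) (r : ℝ) :
    convexHull ℝ (Set.range (Wr V r)) = convexHull ℝ (PV V ∪ (-r) • PV V) := by
  rw [range_Wr, PV, ← convexHull_smul]
  refine subset_antisymm (convexHull_mono ?_) (convexHull_min ?_ (convex_convexHull ℝ _))
  · exact Set.union_subset_union (subset_convexHull ℝ _) (subset_convexHull ℝ _)
  · exact Set.union_subset (convexHull_mono Set.subset_union_left)
      (convexHull_mono Set.subset_union_right)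

/-- the determinants of `V ∪ -r V` in terms of the integral determinants of `V ∪ -V` -/
theorem det_Wr {m N : ℕ} (V : Fin N → Fin m → ℤ) {r : ℝ} (hr : 0 < r)
    (J : Fin m → Fin N ⊕ Fin N) :
    |(Matrix.of fun i l => Wr V r (J i) l).det| =
      r ^ (Finset.univ.filter fun i => (J i).isRight = true).card *
        (|(Matrix.of fun i l => Vi V (J i) l).det| : ℤ) := by
  have h1 : (Matrix.of fun i l => Wr V r (J i) l) =
      Matrix.of fun i l => (if (J i).isRight = true then r else 1) *
        (Int.castRingHom ℝ).mapMatrix (Matrix.of fun i l => Vi V (J i) l) i l := by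
    ext i l
    simp only [Matrix.of_apply, RingHom.mapMatrix_apply, Matrix.map_apply, Wr, Vi]
    cases h : J i <;> simp [toR]
  rw [h1, Matrix.det_mul_column, abs_mul, ← RingHom.map_det, Finset.prod_ite,
    Finset.prod_const_one, mul_one, Finset.prod_const, abs_of_pos (pow_pos hr _)]
  congr 1
  simp

/-- volume of `conv (A ∪ -r A)` from the facets -/
theorem vol_Wr {m N : ℕ} (V : Fin N → Fin m → ℤ) {r : ℝ} (hr : 0 < r) {κ : Type} [Fintype κ]
    {J : κ → Fin m → Fin N ⊕ Fin N} {η : κ → Fin m → ℝ} (hS : Star (Wr V r) κ J η) :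
    m.factorial * volume (convexHull ℝ (PV V ∪ (-r) • PV V)) ≤
      ∑ k, ENNReal.ofReal (r ^ (Finset.univ.filter fun i => (J k i).isRight = true).card *
        (|(Matrix.of fun i l => Vi V (J k i) l).det| : ℤ)) := by
  have h := hS.sumd
  rw [hull_Wr] at h
  refine h.trans (le_of_eq ?_)
  refine Finset.sum_congr rfl fun k _ => ?_
  rw [det_Wr V hr]

/-- the integral determinants of the facets do not vanish -/
theorem det_Vi_ne {m N : ℕ} (V : Fin N → Fin m → ℤ) {r : ℝ} (hr : 0 < r) {κ : Type}
    {J : κ → Fin m → Fin N ⊕ Fin N} {η : κ → Fin m → ℝ} (hS : Star (Wr V r) κ J η) (k : κ) :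
    (Matrix.of fun i l => Vi V (J k i) l).det ≠ 0 := by
  intro h
  have h1 := hS.det k
  apply h1
  rw [← abs_eq_zero, det_Wr V hr, h]
  simp

/-- (GEO) approximation by lattice polytopes in general position -/
theorem geo {m : ℕ} {K : Set (Fin m → ℝ)} (hcomp : IsCompact K) (hconv : Convex ℝ K)
    (h0 : (0 : Fin m → ℝ) ∈ interior K) (R : Finset ℝ) (hR : ∀ r ∈ R, 0 < r) {ε : ℝ}
    (hε : 0 < ε) (hε1 : ε < 1) :
    ∃ (M N : ℕ) (V : Fin N → Fin m → ℤ), 0 < M ∧
      (M : ℝ)⁻¹ • PV V ⊆ K ∧ (1 - ε) • K ⊆ (M : ℝ)⁻¹ • PV V ∧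
      (0 : Fin m → ℝ) ∈ interior (PV V) ∧
      (∀ i a b, a ≠ b → V a i ≠ V b i) ∧
      (∀ s : Fin m → Fin N, Function.Injective s → (Matrix.of fun i l => V (s i) l).det ≠ 0) ∧
      Gen (fun j => toR (V j)) ∧ Bornology.IsBounded (Q fun j => toR (V j)) ∧
      (∀ r ∈ R, Gen (Wr V r) ∧ Bornology.IsBounded (Q (Wr V r)) ∧
        (0 : Fin m → ℝ) ∈ interior (convexHull ℝ (Set.range (Wr V r)))) := by
  classical
  obtain ⟨M, N, V, hM, h1, h2, h3, h4, h5, h6⟩ :=
    approx_one (⟨hcomp, hconv, h0⟩ : H801NS.NB K) hε hε1 R hR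
  have hM' : (M : ℝ) ≠ 0 := by exact_mod_cast hM.ne'
  have hc : (1 - ε) * M ≠ 0 := mul_ne_zero (by linarith) hM'
  have hint : (0 : Fin m → ℝ) ∈ interior (PV V) := by
    refine interior_mono h2 ?_
    rw [interior_smul₀ hc]
    exact ⟨0, h0, smul_zero _⟩
  refine ⟨M, N, V, hM, ?_, ?_, hint, h3, h4, ?_, ?_, ?_⟩
  · rw [PV, ← convexHull_smul]
    refine convexHull_min ?_ hconv
    rintro _ ⟨_, ⟨j, rfl⟩, rfl⟩
    exact h1 j
  · have := Set.smul_set_mono (a := (M : ℝ)⁻¹) h2
    rw [smul_smul] at this
    have e : (M : ℝ)⁻¹ * ((1 - ε) * M) = 1 - ε := by field_simp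
    rw [e] at this
    exact this
  · intro η _
    exact h6 η _ fun a ha => (TH321.MH.mem_T (W := fun j => toR (V j))).1 ha
  · exact polar_bounded _ hint
  · intro r hr
    have hr0 : 0 < r := hR r hr
    have hi : (0 : Fin m → ℝ) ∈ interior (convexHull ℝ (Set.range (Wr V r))) := by
      refine interior_mono ?_ hint
      rw [range_Wr]
      exact convexHull_mono Set.subset_union_left
    refine ⟨?_, polar_bounded _ hi, hi⟩
    intro η _
    have hval : ∀ a : Fin N ⊕ Fin N, a ∈ TH321.MH.T (Wr V r) η →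
        (η ⬝ᵥ toR (V (Sum.elim id id a)) = if a.isRight = true then -1 / r else 1) := by
      intro a ha
      have := TH321.MH.mem_T.1 ha
      cases a with
      | inl j => simpa [Wr] using this
      | inr j =>
        simp only [Wr, Sum.elim_inr, dotProduct_smul, smul_eq_mul, id] at this ⊢
        simp only [Sum.isRight_inr, if_true]
        field_simp
        linarith
    have hne : (-1 : ℝ) / r ≠ 1 := by
      intro h
      have : (-1 : ℝ) / r < 0 := div_neg_of_neg_of_pos (by norm_num) hr0
      linarith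
    have hinj : Set.InjOn (Sum.elim id id : Fin N ⊕ Fin N → Fin N)
        (TH321.MH.T (Wr V r) η : Set (Fin N ⊕ Fin N)) := by
      intro a ha b hb hab
      have e1 := hval a ha
      have e2 := hval b hb
      rw [hab, e2] at e1
      cases a with
      | inl j => cases b with
        | inl l => simpa using hab
        | inr l => simp at e1; exact absurd e1 hne
      | inr j => cases b with
        | inl l => simp at e1; exact absurd e1.symm hne
        | inr l => simpa using hab
    rw [← Finset.card_image_of_injOn hinj]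
    refine h5 r hr η _ fun j hj => ?_
    obtain ⟨a, ha, rfl⟩ := Finset.mem_image.1 hj
    rw [hval a ha]
    split_ifs
    · exact Or.inr rfl
    · exact Or.inl rfl

end TH373.MG
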