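import Pool.Agent.TH373.MG.Gen
import Pool.Agent.TH373.MG.Approx

/-!
# Approximation of convex bodies by lattice polytopes in general position (helper373)
-/

set_option autoImplicit false

open scoped Matrix Pointwise

namespace TH373.MG

open H801NS

/-- an integer vector as a real vector -/
def toR {m : ℕ} (v : Fin m → ℤ) : Fin m → ℝ := fun i => (v i : ℝ)

/-- clearing denominators -/
theorem clear {ι : Type*} [Fintype ι] {m : ℕ} (y : ι → Fin m → ℚ) :
    ∃ (M : ℕ) (V : ι → Fin m → ℤ), 0 < M ∧ ∀ a i, (V a i : ℚ) = M * y a i := by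
  classical
  refine ⟨∏ a, ∏ i, (y a i).den, fun a i =>
    (∏ b, ∏ j, (y b j).den : ℕ) / ((y a i).den : ℤ) * (y a i).num, ?_, ?_⟩
  · exact Finset.prod_pos fun a _ => Finset.prod_pos fun i _ => (y a i).den_pos
  · intro a i
    have hd : ((y a i).den : ℤ) ∣ ((∏ b, ∏ j, (y b j).den : ℕ) : ℤ) := by
      rw [Int.natCast_dvd_natCast]
      exact (Finset.dvd_prod_of_mem (fun j => (y a j).den) (Finset.mem_univ i)).trans
        (Finset.dvd_prod_of_mem (fun b => ∏ j, (y b j).den) (Finset.mem_univ a))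
    obtain ⟨t, ht⟩ := hd
    have hden : ((y a i).den : ℤ) ≠ 0 := by exact_mod_cast (y a i).den_ne_zero
    beta_reduce
    rw [ht, Int.mul_ediv_cancel_left _ hden]
    have h1 : ((∏ b, ∏ j, (y b j).den : ℕ) : ℚ) = ((y a i).den : ℚ) * t := by
      have := congrArg (fun z : ℤ => (z : ℚ)) ht
      simpa using this
    rw [h1]
    push_cast
    have h2 : ((y a i).den : ℚ) * y a i = (y a i).num := by
      rw [mul_comm]; exact Rat.mul_den_eq_num (y a i)
    rw [← h2]
    ring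

/-- joint approximation of a finite family of convex bodies by lattice polytopes in general
position; `S` is a finite set of nonzero reals -/
theorem approx_family {κ : Type} [Fintype κ] {m : ℕ} {K : κ → Set (Fin m → ℝ)}
    (hK : ∀ k, NB (K k)) {ε : ℝ} (hε : 0 < ε) (hε1 : ε < 1) (S : Finset ℝ) (hS : (0 : ℝ) ∉ S) :
    ∃ (M : ℕ) (N : κ → ℕ) (V : (Σ k, Fin (N k)) → Fin m → ℤ), 0 < M ∧
      (∀ a, ((M : ℝ)⁻¹ • toR (V a)) ∈ K a.1) ∧
      (∀ k, ((1 - ε) * M) • K k ⊆ convexHull ℝ (Set.range fun j : Fin (N k) => toR (V ⟨k, j⟩))) ∧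
      (∀ i a b, a ≠ b → V a i ≠ V b i) ∧
      (∀ s : Fin m → (Σ k, Fin (N k)), Function.Injective s →
        (Matrix.of fun i l => V (s i) l).det ≠ 0) ∧
      (∀ (η : Fin m → ℝ) (J : Finset (Σ k, Fin (N k))),
        (∀ a ∈ J, η ⬝ᵥ toR (V a) ∈ S) → J.card ≤ m) := by
  classical
  choose N x δ hδ h using fun k => approx_stable (hK k) hε hε1
  obtain ⟨δ0, hδ0, hδ0'⟩ : ∃ δ0 : ℝ, 0 < δ0 ∧ ∀ k, δ0 ≤ δ k := by
    rcases isEmpty_or_nonempty κ with h | h
    · exact ⟨1, one_pos, fun k => (h.false k).elim⟩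
    · obtain ⟨k0, hk0⟩ := Finite.exists_min δ
      exact ⟨δ k0, hδ k0, hk0⟩
  obtain ⟨y, hy1, hy2, hy3, hy4⟩ := gen_points (fun a : Σ k, Fin (N k) => x a.1 a.2) hδ0 S hS
  obtain ⟨M, V, hM, hV⟩ := clear y
  have hM' : (M : ℝ) ≠ 0 := by exact_mod_cast hM.ne'
  have hVR : ∀ a, toR (V a) = (M : ℝ) • fun i => (y a i : ℝ) := by
    intro a
    ext i
    have := congrArg (fun q : ℚ => (q : ℝ)) (hV a i)
    simpa [toR] using this
  have hyK : ∀ k, (∀ j : Fin (N k), (fun i => (y ⟨k, j⟩ i : ℝ)) ∈ K k) ∧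
      (1 - ε) • K k ⊆ convexHull ℝ (Set.range fun j : Fin (N k) => fun i => (y ⟨k, j⟩ i : ℝ)) := by
    intro k
    refine h k (fun j i => (y ⟨k, j⟩ i : ℝ)) fun j => ?_
    refine lt_of_lt_of_le ?_ (hδ0' k)
    rw [pi_norm_lt_iff hδ0]
    intro i
    rw [Pi.sub_apply, Real.norm_eq_abs]
    exact hy1 ⟨k, j⟩ i
  refine ⟨M, N, V, hM, ?_, ?_, ?_, ?_, ?_⟩
  · rintro ⟨k, j⟩
    rw [hVR, smul_smul, inv_mul_cancel₀ hM', one_smul]
    exact (hyK k).1 j
  · intro k
    have h1 : (Set.range fun j : Fin (N k) => toR (V ⟨k, j⟩)) =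
        (M : ℝ) • Set.range fun j : Fin (N k) => fun i => (y ⟨k, j⟩ i : ℝ) := by
      rw [Set.smul_set_range]
      congr 1
      funext j
      exact hVR _
    rw [h1, convexHull_smul, mul_comm, mul_smul]
    exact Set.smul_set_mono (hyK k).2
  · intro i a b hab heq
    apply hy2 i a b hab
    have h1 := hV a i
    rw [heq, hV b i] at h1
    have : (M : ℚ) ≠ 0 := by exact_mod_cast hM.ne'
    exact (mul_left_cancel₀ this h1).symm
  · intro s hs hd
    apply hy3 s hs
    have h1 : (Matrix.of fun i l => ((V (s i) l : ℤ) : ℝ)).det = 0 := by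
      have : (Matrix.of fun i l => ((V (s i) l : ℤ) : ℝ)) =
          (Int.castRingHom ℝ).mapMatrix (Matrix.of fun i l => V (s i) l) := by
        ext i l; simp
      rw [this, ← RingHom.map_det, hd, map_zero]
    have h2 : (Matrix.of fun i l => ((V (s i) l : ℤ) : ℝ)) =
        (M : ℝ) • (Matrix.of fun i l => (y (s i) l : ℝ)) := by
      ext i l
      have := congrFun (hVR (s i)) l
      simpa [toR] using this
    rw [h2, Matrix.det_smul] at h1
    exact (mul_eq_zero.1 h1).resolve_left (pow_ne_zero _ hM')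
  · intro η J hJ
    refine hy4 ((M : ℝ) • η) J fun a ha => ?_
    have := hJ a ha
    rwa [hVR, dotProduct_smul, ← smul_dotProduct] at this

/-- one convex body and the family `V ∪ -r V` -/
theorem approx_one {m : ℕ} {K : Set (Fin m → ℝ)} (hK : NB K) {ε : ℝ} (hε : 0 < ε) (hε1 : ε < 1)
    (R : Finset ℝ) (hR : ∀ r ∈ R, 0 < r) :
    ∃ (M N : ℕ) (V : Fin N → Fin m → ℤ), 0 < M ∧
      (∀ a, ((M : ℝ)⁻¹ • toR (V a)) ∈ K) ∧
      ((1 - ε) * M) • K ⊆ convexHull ℝ (Set.range fun j => toR (V j)) ∧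
      (∀ i a b, a ≠ b → V a i ≠ V b i) ∧
      (∀ s : Fin m → Fin N, Function.Injective s → (Matrix.of fun i l => V (s i) l).det ≠ 0) ∧
      (∀ r ∈ R, ∀ (η : Fin m → ℝ) (J : Finset (Fin N)),
        (∀ a ∈ J, η ⬝ᵥ toR (V a) = 1 ∨ η ⬝ᵥ toR (V a) = -1 / r) → J.card ≤ m) ∧
      (∀ (η : Fin m → ℝ) (J : Finset (Fin N)), (∀ a ∈ J, η ⬝ᵥ toR (V a) = 1) → J.card ≤ m) := by
  classical
  obtain ⟨M, N, V, h1, h2, h3, h4, h5, h6⟩ := approx_family (κ := Unit) (K := fun _ => K)
    (fun _ => hK) hε hε1 (insert 1 (R.image fun r => -1 / r)) (by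
      rw [Finset.mem_insert, Finset.mem_image]
      rintro (h | ⟨r, hr, h⟩)
      · exact zero_ne_one h
      · have := hR r hr
        rw [div_eq_zero_iff] at h
        rcases h with h | h
        · norm_num at h
        · linarith)
  have hinj : Function.Injective fun j : Fin (N ()) => (⟨(), j⟩ : Σ k, Fin (N k)) := by
    intro a b hab
    simpa using hab
  refine ⟨M, N (), fun j => V ⟨(), j⟩, h1, fun a => h2 ⟨(), a⟩, h3 (), ?_, ?_, ?_, ?_⟩
  · intro i a b hab
    exact h4 i _ _ fun h => hab (hinj h)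
  · intro s hs
    exact h5 (fun i => ⟨(), s i⟩) (hinj.comp hs)
  · intro r hr η J hJ
    have := h6 η (J.map ⟨_, hinj⟩) (by
      intro a ha
      obtain ⟨j, hj, rfl⟩ := Finset.mem_map.1 ha
      rw [Finset.mem_insert, Finset.mem_image]
      rcases hJ j hj with h | h
      · exact Or.inl h
      · exact Or.inr ⟨r, hr, h.symm⟩)
    rwa [Finset.card_map] at this
  · intro η J hJ
    have := h6 η (J.map ⟨_, hinj⟩) (by
      intro a ha
      obtain ⟨j, hj, rfl⟩ := Finset.mem_map.1 ha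
      rw [Finset.mem_insert]
      exact Or.inl (hJ j hj))
    rwa [Finset.card_map] at this

/-- the polar of a family whose hull contains a ball is bounded -/
theorem polar_bounded {ι : Type*} {m : ℕ} (W : ι → Fin m → ℝ)
    (h0 : (0 : Fin m → ℝ) ∈ interior (convexHull ℝ (Set.range W))) :
    Bornology.IsBounded {η : Fin m → ℝ | ∀ j, η ⬝ᵥ W j ≤ 1} := by
  obtain ⟨ρ, hρ, hb⟩ := Metric.mem_nhds_iff.1 (mem_interior_iff_mem_nhds.1 h0)
  have key : ∀ η : Fin m → ℝ, (∀ j, η ⬝ᵥ W j ≤ 1) → ∀ x ∈ convexHull ℝ (Set.range W),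
      η ⬝ᵥ x ≤ 1 := by
    intro η hη
    have hconv : Convex ℝ {x : Fin m → ℝ | η ⬝ᵥ x ≤ 1} := by
      intro x hx y hy a b ha hb hab
      rw [Set.mem_ofPred_eq] at hx hy ⊢
      rw [dotProduct_add, dotProduct_smul, dotProduct_smul, smul_eq_mul, smul_eq_mul]
      nlinarith
    exact convexHull_min (by rintro _ ⟨j, rfl⟩; exact hη j) hconv
  rw [isBounded_iff_forall_norm_le]
  refine ⟨2 / ρ, fun η hη => ?_⟩
  rw [pi_norm_le_iff_of_nonneg (by positivity)]
  intro i
  have h1 : ∀ t : ℝ, |t| < ρ → η i * t ≤ 1 := by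
    intro t ht
    have := key η hη (Pi.single i t) (hb (by
      rw [mem_ball_zero_iff, Pi.norm_single, Real.norm_eq_abs]
      exact ht))
    rwa [dotProduct_single] at this
  rw [Real.norm_eq_abs, abs_le]
  have h2 := h1 (ρ / 2) (by rw [abs_of_pos (by positivity)]; linarith)
  have h3 := h1 (-(ρ / 2)) (by rw [abs_neg, abs_of_pos (by positivity)]; linarith)
  constructor
  · rw [← sub_nonneg]
    have : η i - -(2 / ρ) = (1 - η i * -(ρ / 2)) * (2 / ρ) := by field_simp; ring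
    rw [this]
    exact mul_nonneg (by linarith) (by positivity)
  · rw [← sub_nonneg]
    have : 2 / ρ - η i = (1 - η i * (ρ / 2)) * (2 / ρ) := by field_simp
    rw [this]
    exact mul_nonneg (by linarith) (by positivity)

end TH373.MG
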